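import Pool.Agent.W2helper86.LG.Circ

/-! Project MG, piece ANDNOT: a circuit for `C₁ ∧ ¬ C₂` with one NOT line. -/

set_option autoImplicit false

namespace Pool.Agent.W2helper14.MG

open Finset Pool.Agent.W2helper86.LG

variable {m : ℕ}

/-- shift the operands of a gate -/
def sh (k : ℕ) : Gate m → Gate m
  | .const b => .const b
  | .inp i => .inp i
  | .not a => .not (k + a)
  | .and a b => .and (k + a) (k + b)
  | .or a b => .or (k + a) (k + b)

theorem sh_weight (k : ℕ) (g : Gate m) : (sh k g).weight = g.weight := by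
  cases g <;> rfl

theorem sh_below {k i : ℕ} {g : Gate m} (h : g.Below i) : (sh k g).Below (k + i) := by
  cases g with
  | const b => trivial
  | inp j => trivial
  | not a => simp only [Gate.Below] at h; simp only [sh, Gate.Below]; omega
  | and a b => simp only [Gate.Below] at h; simp only [sh, Gate.Below]; omega
  | or a b => simp only [Gate.Below] at h; simp only [sh, Gate.Below]; omega

theorem below_mono {i j : ℕ} (hij : i ≤ j) {g : Gate m} (h : g.Below i) : g.Below j := by
  cases g with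
  | const b => trivial
  | inp j => trivial
  | not a => simp only [Gate.Below] at h ⊢; omega
  | and a b => simp only [Gate.Below] at h ⊢; omega
  | or a b => simp only [Gate.Below] at h ⊢; omega

/-- the lines of the circuit for `C₁ ∧ ¬ C₂` -/
def lines (C₁ C₂ : Circuit m) (i : ℕ) : Gate m :=
  if i < C₁.len then C₁.gate i
  else if i < C₁.len + C₂.len then sh C₁.len (C₂.gate (i - C₁.len))
  else if i = C₁.len + C₂.len then .not (C₁.len + C₂.out)
  else .and C₁.out (C₁.len + C₂.len)

theorem lines1 (C₁ C₂ : Circuit m) {i : ℕ} (h : i < C₁.len) : lines C₁ C₂ i = C₁.gate i := by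
  unfold lines
  rw [if_pos h]

theorem lines2 (C₁ C₂ : Circuit m) {i : ℕ} (h : i < C₂.len) :
    lines C₁ C₂ (C₁.len + i) = sh C₁.len (C₂.gate i) := by
  unfold lines
  rw [if_neg (by omega), if_pos (by omega), Nat.add_sub_cancel_left]

theorem lines3 (C₁ C₂ : Circuit m) : lines C₁ C₂ (C₁.len + C₂.len) = .not (C₁.len + C₂.out) := by
  unfold lines
  rw [if_neg (by omega), if_neg (by omega), if_pos rfl]

theorem lines4 (C₁ C₂ : Circuit m) :
    lines C₁ C₂ (C₁.len + C₂.len + 1) = .and C₁.out (C₁.len + C₂.len) := by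
  unfold lines
  rw [if_neg (by omega), if_neg (by omega), if_neg (by omega)]

/-- the circuit for `C₁ ∧ ¬ C₂` -/
def andNot (C₁ C₂ : Circuit m) : Circuit m where
  len := C₁.len + C₂.len + 2
  gate := lines C₁ C₂
  out := C₁.len + C₂.len + 1
  below := by
    intro i hi
    have o1 := C₁.out_lt
    have o2 := C₂.out_lt
    rcases Nat.lt_or_ge i C₁.len with h | h
    · rw [lines1 C₁ C₂ h]
      exact C₁.below i h
    · rcases Nat.lt_or_ge i (C₁.len + C₂.len) with h' | h'
      · obtain ⟨j, rfl⟩ := Nat.exists_eq_add_of_le h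
        rw [lines2 C₁ C₂ (by omega)]
        exact sh_below (C₂.below j (by omega))
      · rcases Nat.lt_or_ge (C₁.len + C₂.len) i with h2 | h2
        · have : i = C₁.len + C₂.len + 1 := by omega
          subst this
          rw [lines4]
          simp only [Gate.Below]
          omega
        · have : i = C₁.len + C₂.len := by omega
          subst this
          rw [lines3]
          simp only [Gate.Below]
          omega
  out_lt := by omega

theorem eval_congr (x : Fin m → Bool) (v w : ℕ → Bool) {i : ℕ} {g : Gate m} (hb : g.Below i)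
    (h : ∀ j < i, v j = w j) : g.eval x v = g.eval x w := by
  cases g with
  | const b => rfl
  | inp j => rfl
  | not a => simp only [Gate.Below] at hb; simp only [Gate.eval]; rw [h a hb]
  | and a b => simp only [Gate.Below] at hb; simp only [Gate.eval]; rw [h a hb.1, h b hb.2]
  | or a b => simp only [Gate.Below] at hb; simp only [Gate.eval]; rw [h a hb.1, h b hb.2]

theorem eval_sh (x : Fin m → Bool) (k : ℕ) (v w : ℕ → Bool) {i : ℕ} {g : Gate m} (hb : g.Below i)
    (h : ∀ j < i, v (k + j) = w j) : (sh k g).eval x v = g.eval x w := by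
  cases g with
  | const b => rfl
  | inp j => rfl
  | not a => simp only [Gate.Below] at hb; simp only [sh, Gate.eval]; rw [h a hb]
  | and a b => simp only [Gate.Below] at hb; simp only [sh, Gate.eval]; rw [h a hb.1, h b hb.2]
  | or a b => simp only [Gate.Below] at hb; simp only [sh, Gate.eval]; rw [h a hb.1, h b hb.2]

theorem val1 (C₁ C₂ : Circuit m) (x : Fin m → Bool) : ∀ i < C₁.len, (andNot C₁ C₂).val x i = C₁.val x i := by
  intro i
  induction i using Nat.strong_induction_on with
  | _ i ih =>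
    intro hi
    rw [(andNot C₁ C₂).val_eq x (by show i < C₁.len + C₂.len + 2; omega), C₁.val_eq x hi]
    show (lines C₁ C₂ i).eval x _ = _
    rw [lines1 C₁ C₂ hi]
    exact eval_congr x _ _ (C₁.below i hi) fun j hj => ih j hj (by omega)

theorem val2 (C₁ C₂ : Circuit m) (x : Fin m → Bool) :
    ∀ i < C₂.len, (andNot C₁ C₂).val x (C₁.len + i) = C₂.val x i := by
  intro i
  induction i using Nat.strong_induction_on with
  | _ i ih =>
    intro hi
    rw [(andNot C₁ C₂).val_eq x (by show C₁.len + i < C₁.len + C₂.len + 2; omega), C₂.val_eq x hi]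
    show (lines C₁ C₂ (C₁.len + i)).eval x _ = _
    rw [lines2 C₁ C₂ hi]
    exact eval_sh x C₁.len _ _ (C₂.below i hi) fun j hj => ih j hj (by omega)

theorem eval_andNot (C₁ C₂ : Circuit m) (x : Fin m → Bool) :
    (andNot C₁ C₂).eval x = (C₁.eval x && !(C₂.eval x)) := by
  show (andNot C₁ C₂).val x (C₁.len + C₂.len + 1) = _
  rw [(andNot C₁ C₂).val_eq x (by show C₁.len + C₂.len + 1 < C₁.len + C₂.len + 2; omega)]
  show (lines C₁ C₂ (C₁.len + C₂.len + 1)).eval x _ = _
  rw [lines4]
  show ((andNot C₁ C₂).val x C₁.out && (andNot C₁ C₂).val x (C₁.len + C₂.len)) = _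
  rw [val1 C₁ C₂ x _ C₁.out_lt,
    (andNot C₁ C₂).val_eq x (by show C₁.len + C₂.len < C₁.len + C₂.len + 2; omega)]
  show (_ && (lines C₁ C₂ (C₁.len + C₂.len)).eval x _) = _
  rw [lines3]
  show (_ && !((andNot C₁ C₂).val x (C₁.len + C₂.out))) = _
  rw [val2 C₁ C₂ x _ C₂.out_lt]
  rfl

theorem size_andNot (C₁ C₂ : Circuit m) : (andNot C₁ C₂).size = C₁.size + C₂.size + 1 := by
  unfold Circuit.size
  show ∑ i ∈ range (C₁.len + C₂.len + 2), (lines C₁ C₂ i).weight = _
  rw [sum_range_succ, sum_range_succ, sum_range_add, lines3, lines4]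
  have e1 : ∑ i ∈ range C₁.len, (lines C₁ C₂ i).weight = ∑ i ∈ range C₁.len, (C₁.gate i).weight :=
    sum_congr rfl fun i hi => by rw [lines1 C₁ C₂ (mem_range.mp hi)]
  have e2 : ∑ i ∈ range C₂.len, (lines C₁ C₂ (C₁.len + i)).weight = ∑ i ∈ range C₂.len, (C₂.gate i).weight :=
    sum_congr rfl fun i hi => by rw [lines2 C₁ C₂ (mem_range.mp hi), sh_weight]
  rw [e1, e2]
  simp [Gate.weight]

theorem sh_not {k : ℕ} {g : Gate m} {a : ℕ} (h : sh k g = .not a) : ∃ b, g = .not b := by
  cases g with
  | not b => exact ⟨b, rfl⟩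
  | const b => simp [sh] at h
  | inp i => simp [sh] at h
  | and a b => simp [sh] at h
  | or a b => simp [sh] at h

theorem only_not (C₁ C₂ : Circuit m) (h1 : ∀ i < C₁.len, ∀ a, C₁.gate i ≠ Gate.not a)
    (h2 : ∀ i < C₂.len, ∀ a, C₂.gate i ≠ Gate.not a) {i : ℕ} (hi : i < C₁.len + C₂.len + 2)
    (h : ∃ a, lines C₁ C₂ i = Gate.not a) : i = C₁.len + C₂.len := by
  obtain ⟨a, ha⟩ := h
  rcases Nat.lt_or_ge i C₁.len with h | h
  · rw [lines1 C₁ C₂ h] at ha
    exact absurd ha (h1 i h a)
  · rcases Nat.lt_or_ge i (C₁.len + C₂.len) with h' | h'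
    · obtain ⟨j, rfl⟩ := Nat.exists_eq_add_of_le h
      rw [lines2 C₁ C₂ (by omega)] at ha
      obtain ⟨b, hb⟩ := sh_not ha
      exact absurd hb (h2 j (by omega) b)
    · rcases Nat.lt_or_ge (C₁.len + C₂.len) i with h3 | h3
      · have : i = C₁.len + C₂.len + 1 := by omega
        subst this
        rw [lines4] at ha
        simp at ha
      · omega

/-- PIECE ANDNOT, with the definitions `NoNot` and `OneNot` unfolded -/
theorem andnot (m : ℕ) (C₁ C₂ : Circuit m) (h1 : ∀ i < C₁.len, ∀ a, C₁.gate i ≠ Gate.not a)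
    (h2 : ∀ i < C₂.len, ∀ a, C₂.gate i ≠ Gate.not a) :
    ∃ C : Circuit m, (∀ i < C.len, ∀ j < C.len, (∃ a, C.gate i = Gate.not a) →
        (∃ a, C.gate j = Gate.not a) → i = j) ∧
      C.size ≤ C₁.size + C₂.size + 1 ∧ ∀ x, C.eval x = (C₁.eval x && !(C₂.eval x)) := by
  refine ⟨andNot C₁ C₂, fun i hi j hj hni hnj => ?_, (size_andNot C₁ C₂).le, eval_andNot C₁ C₂⟩
  rw [only_not C₁ C₂ h1 h2 hi hni, only_not C₁ C₂ h1 h2 hj hnj]

end Pool.Agent.W2helper14.MG
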